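import Pool.Agent.Lib.MP_9cc147_pr.Cx.G.Clo
import Pool.Agent.Lib.MP_9cc147_pr.Cx.T.Geo2

/-! Domination of the atoms of one step by the noise majorant. -/

open scoped Classical Topology
open Finset MeasureTheory ProbabilityTheory Filter

noncomputable section
namespace Pool.Agent.Lib.MP_9cc147_pr.Cx

theorem g_sq_add (a b : ℂ) : ‖a + b‖ ^ 2 ≤ 2 * ‖a‖ ^ 2 + 2 * ‖b‖ ^ 2 := by
  have h := norm_add_le a b
  have h2 : ‖a + b‖ ^ 2 ≤ (‖a‖ + ‖b‖) ^ 2 := by gcongr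
  nlinarith [sq_nonneg (‖a‖ - ‖b‖)]

theorem g_n1_add (u v : Fld) (x : P) : n1 (u + v) x ≤ 2 * n1 u x + 2 * n1 v x := by
  have h : ∑ d, ‖dg (u + v) x d‖ ^ 2 ≤ ∑ d, (2 * ‖dg u x d‖ ^ 2 + 2 * ‖dg v x d‖ ^ 2) :=
    sum_le_sum fun d _ => by
      have e : dg (u + v) x d = dg u x d + dg v x d := by simp only [dg, Pi.add_apply]; ring
      rw [e]; exact g_sq_add _ _
  rw [sum_add_distrib, ← mul_sum, ← mul_sum] at h
  unfold n1
  linarith

theorem g_n2_add (u v : Fld) (p : P) : n2 (u + v) p ≤ 2 * n2 u p + 2 * n2 v p := by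
  have h1 := g_sq_add (u (p + (1, 0)) - 2 * u p + u (p - (1, 0)))
    (v (p + (1, 0)) - 2 * v p + v (p - (1, 0)))
  have h2 := g_sq_add (u (p + (0, 1)) - 2 * u p + u (p - (0, 1)))
    (v (p + (0, 1)) - 2 * v p + v (p - (0, 1)))
  have h3 := g_sq_add (u (p + (1, 1)) - u (p + (1, 0)) - u (p + (0, 1)) + u p)
    (v (p + (1, 1)) - v (p + (1, 0)) - v (p + (0, 1)) + v p)
  have e1 : ∀ a b c a' b' c' : ℂ, a + a' - 2 * (b + b') + (c + c') =
      a - 2 * b + c + (a' - 2 * b' + c') := by intros; ring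
  have e2 : ∀ a b c d a' b' c' d' : ℂ, a + a' - (b + b') - (c + c') + (d + d') =
      a - b - c + d + (a' - b' - c' + d') := by intros; ring
  simp only [n2, Pi.add_apply, e1, e2]
  linarith

theorem g_Nf_add (l : ℕ) (u v : Fld) (S : Finset P) :
    Nf l (u + v) S ≤ 2 * Nf l u S + 2 * Nf l v S := by
  simp only [Nf, mul_sum, ← sum_add_distrib]
  refine sum_le_sum fun p _ => ?_
  have := mul_le_mul_of_nonneg_left (g_n2_add u v p) (sq_nonneg (l : ℝ))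
  linarith [g_n1_add u v p]

theorem g_Nf_nn (l : ℕ) (v : Fld) (S : Finset P) : 0 ≤ Nf l v S :=
  sum_nonneg fun p _ => add_nonneg (T.n1_nn v p) (mul_nonneg (sq_nonneg _) (T.n2_nn v p))

theorem g_Nf_N0 (l : ℕ) (v : Fld) (S : Finset P) : Nf l v S ≤ N0 l v S :=
  le_add_of_nonneg_right (sum_nonneg fun p _ => by positivity)

theorem g_sum_biUnion (X : Finset P) (t : P → Finset P) (f : P → ℝ) (hf : ∀ p, 0 ≤ f p) :
    ∑ p ∈ X.biUnion t, f p ≤ ∑ B ∈ X, ∑ p ∈ t B, f p := by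
  induction X using Finset.induction_on with
  | empty => simp
  | insert B X hB ih =>
    rw [biUnion_insert, sum_insert hB]
    have h := sum_union_inter (s₁ := t B) (s₂ := X.biUnion t) (f := f)
    have h2 : 0 ≤ ∑ p ∈ t B ∩ X.biUnion t, f p := sum_nonneg fun p _ => hf p
    linarith

theorem g_cell_nb (l : ℕ) (B : P) : cell l B ⊆ nb l B := fun x hx => by
  simp only [cell, mem_product, mem_Ico] at hx
  have : (0 : ℤ) ≤ ((l / 4 : ℕ) : ℤ) := by positivity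
  rw [nb, T.mem_fat]
  omega

theorem g_Reg_le (l : ℕ) (X : Finset P) (θ : P → ℝ) :
    Reg l X θ ≤ 2 * ∑ B ∈ X, Nf l (cf θ) (nb l B) := by
  have hs : under l X ⊆ nbs l X := biUnion_mono fun B _ => g_cell_nb l B
  have h1 : ∑ x ∈ under l X, n1 (cf θ) x ≤ ∑ x ∈ nbs l X, n1 (cf θ) x :=
    sum_le_sum_of_subset_of_nonneg hs fun p _ _ => T.n1_nn _ p
  have h2 : ∑ x ∈ nbs l X \ under l X, n1 (cf θ) x ≤ ∑ x ∈ nbs l X, n1 (cf θ) x :=
    sum_le_sum_of_subset_of_nonneg sdiff_subset fun p _ _ => T.n1_nn _ p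
  have h3 : Nf l (cf θ) (nbs l X) ≤ ∑ B ∈ X, Nf l (cf θ) (nb l B) :=
    g_sum_biUnion X (nb l) _ fun p =>
      add_nonneg (T.n1_nn _ p) (mul_nonneg (sq_nonneg _) (T.n2_nn _ p))
  have h4 : 0 ≤ ∑ x ∈ nbs l X, n1 (cf θ) x := sum_nonneg fun p _ => T.n1_nn _ p
  have h5 : 0 ≤ (l : ℝ) ^ 2 * ∑ x ∈ nbs l X, n2 (cf θ) x :=
    mul_nonneg (sq_nonneg _) (sum_nonneg fun p _ => T.n2_nn _ p)
  rw [Nf, sum_add_distrib, ← mul_sum] at h3
  unfold Reg
  linarith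

theorem g_cf_add (θ ζ : P → ℝ) : cf (θ + ζ) = cf θ + cf ζ := by
  ext p; simp [cf]

theorem g_dir_add {n : ℕ} {θ ζ : P → ℝ} (h : Dir n θ) (h' : Dir n ζ) : Dir n (θ + ζ) := fun p => by
  obtain ⟨a1, a2, a3, a4⟩ := h p
  obtain ⟨b1, b2, b3, b4⟩ := h' p
  simp only [Pi.add_apply, a1, a2, a3, a4, b1, b2, b3, b4]
  refine ⟨by ring, by ring, trivial, trivial⟩

theorem g_dir_zero (n : ℕ) : Dir n 0 := fun p => by simp

theorem g_En_le (Θ : Fld) (S : Finset P) : ‖En Θ S‖ ≤ ∑ x ∈ S, n1 Θ x := by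
  refine (norm_sum_le _ _).trans (sum_le_sum fun x _ => ?_)
  rw [norm_mul, n1]
  refine mul_le_mul (by simp) ((norm_sum_le _ _).trans (le_of_eq ?_)) (norm_nonneg _) (by norm_num)
  simp only [norm_pow]

theorem g_meas_shift {ζ : Om → P → ℝ} (h : Measurable ζ) (Θ : Fld) :
    Measurable fun ω => Θ + cf (ζ ω) :=
  measurable_pi_lambda _ fun p => measurable_const.add
    (Complex.measurable_ofReal.comp ((measurable_pi_apply p).comp h))

theorem g_meas_En (S : Finset P) : Measurable fun Θ : Fld => En Θ S := by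
  unfold En dg
  fun_prop

/-- the noise majorant of a block -/
def gy (q : Par) (b : ℕ × ℕ) (j : ℕ) (B : P) (ω : Om) : ℝ :=
  Real.exp (q.L * q.κ * N0 (q.l j) (cf (zeta q.L (q.n b) j ω)) (nb (q.l j) B))

theorem gy_one (q : Par) (hκ : 0 ≤ q.κ) (b : ℕ × ℕ) (j : ℕ) (B : P) (ω : Om) : 1 ≤ gy q b j B ω :=
  Real.one_le_exp (mul_nonneg (mul_nonneg (Nat.cast_nonneg _) hκ)
    ((g_Nf_nn _ _ _).trans (g_Nf_N0 _ _ _)))

theorem gy_prod (q : Par) (b : ℕ × ℕ) (j : ℕ) (S : Finset P) (ω : Om) :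
    ∏ B ∈ S, gy q b j B ω = Real.exp (q.L * q.κ *
      ∑ B ∈ S, N0 (q.l j) (cf (zeta q.L (q.n b) j ω)) (nb (q.l j) B)) := by
  simp only [gy, ← Real.exp_sum, mul_sum]

variable {Y : Type} [TopologicalSpace Y] {τ0 : Y} {q : Par} {b : ℕ × ℕ} {j : ℕ} {z : ℂ}

theorem g_domK (hL : 100 ≤ q.L) (hκ : 0 ≤ q.κ) (hm : Measurable (zeta q.L (q.n b) j))
    (hD : ∀ ω, Dir (q.n b) (zeta q.L (q.n b) j ω)) {X : Finset P} {F : Y → Fld → ℂ} {a : ℝ}
    {θ : P → ℝ} {v : Fld} (hF : ∀ τ, Measurable (F τ)) (hb : ∀ τ, q.BdJ b j z X (F τ) a)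
    (hθ : Dir (q.n b) θ) (hv : Strip (q.n b) (q.l j) q.h (q.L * q.h) X v)
    (hc : ∀ θ', Dir (q.n b) θ' → Continuous fun τ => F τ (bg (q.n b) z + cf θ' + v)) :
    Dom τ0 (gy q b j) X
      fun p => F p.1 (bg (q.n b) z + cf θ + v + cf (zeta q.L (q.n b) j p.2)) := by
  have e : ∀ ω, bg (q.n b) z + cf θ + v + cf (zeta q.L (q.n b) j ω) =
      bg (q.n b) z + cf (θ + zeta q.L (q.n b) j ω) + v := fun ω => by rw [g_cf_add]; abel
  refine ⟨fun τ => (hF τ).comp (g_meas_shift hm _), fun ω => ?_,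
    |a * q.A⁻¹ ^ X.card| * Real.exp (q.κ * (4 * ∑ B ∈ X, Nf (q.l j) (cf θ) (nb (q.l j) B))),
    by positivity, .of_forall fun τ ω => ?_⟩
  · simpa only [e] using hc _ (g_dir_add hθ (hD ω))
  · simp only [e]
    refine (hb τ _ (g_dir_add hθ (hD ω)) v hv).trans ?_
    rw [gy_prod, mul_assoc |_|, ← Real.exp_add]
    refine mul_le_mul (le_abs_self _) (Real.exp_le_exp.2 ?_) (Real.exp_pos _).le (abs_nonneg _)
    have h1 := g_Reg_le (q.l j) X (θ + zeta q.L (q.n b) j ω)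
    have h2 : ∑ B ∈ X, Nf (q.l j) (cf (θ + zeta q.L (q.n b) j ω)) (nb (q.l j) B) ≤
        2 * ∑ B ∈ X, Nf (q.l j) (cf θ) (nb (q.l j) B) +
        2 * ∑ B ∈ X, N0 (q.l j) (cf (zeta q.L (q.n b) j ω)) (nb (q.l j) B) := by
      rw [mul_sum, mul_sum, ← sum_add_distrib, g_cf_add]
      exact sum_le_sum fun B _ => (g_Nf_add _ _ _ _).trans
        (by linarith [g_Nf_N0 (q.l j) (cf (zeta q.L (q.n b) j ω)) (nb (q.l j) B)])
    have h3 : 0 ≤ ∑ B ∈ X, N0 (q.l j) (cf (zeta q.L (q.n b) j ω)) (nb (q.l j) B) :=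
      sum_nonneg fun B _ => (g_Nf_nn _ _ _).trans (g_Nf_N0 _ _ _)
    have h4 : (100 : ℝ) ≤ q.L := by exact_mod_cast hL
    have h5 := mul_le_mul_of_nonneg_left (h1.trans (mul_le_mul_of_nonneg_left h2 zero_le_two)) hκ
    nlinarith [mul_nonneg hκ h3]

theorem g_domI (hL : 100 ≤ q.L) (hκ : 0 ≤ q.κ) (hm : Measurable (zeta q.L (q.n b) j))
    {lam : Y → ℝ} (hc : Continuous lam) (hl : ∀ τ, |lam τ| ≤ q.κ) (B : P) (Θ : Fld) :
    Dom τ0 (gy q b j) {B}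
      fun p => q.Ih b j z (lam p.1) B (Θ + cf (zeta q.L (q.n b) j p.2)) := by
  obtain ⟨c, hc'⟩ : ∃ c : ℂ, ∀ Ξ, q.Qz b j z B Ξ = En Ξ (cell (q.l j) B) - c := ⟨_, fun _ => rfl⟩
  simp only [Par.Ih, hc']
  refine ⟨fun τ => ?_, fun ω => by dsimp only; fun_prop,
    Real.exp (q.κ * (∑ x ∈ cell (q.l j) B, n1 Θ x + ‖c‖)), by positivity,
    .of_forall fun τ ω => ?_⟩
  · have h : Measurable fun ω => En (Θ + cf (zeta q.L (q.n b) j ω)) (cell (q.l j) B) :=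
      (g_meas_En _).comp (g_meas_shift hm Θ)
    dsimp only
    exact ((h.sub_const c).const_mul _).cexp
  · rw [prod_singleton, gy, ← Real.exp_add]
    refine (Complex.norm_exp_le_exp_norm _).trans (Real.exp_le_exp.2 ?_)
    have h1 := (norm_sub_le _ c).trans (add_le_add_left
      (g_En_le (Θ + cf (zeta q.L (q.n b) j ω)) (cell (q.l j) B)) _)
    have h2 : ∑ x ∈ cell (q.l j) B, n1 (Θ + cf (zeta q.L (q.n b) j ω)) x ≤
        2 * ∑ x ∈ cell (q.l j) B, n1 Θ x +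
        2 * ∑ x ∈ cell (q.l j) B, n1 (cf (zeta q.L (q.n b) j ω)) x := by
      rw [mul_sum, mul_sum, ← sum_add_distrib]
      exact sum_le_sum fun x _ => g_n1_add _ _ _
    have h3 : ∑ x ∈ cell (q.l j) B, n1 (cf (zeta q.L (q.n b) j ω)) x ≤
        N0 (q.l j) (cf (zeta q.L (q.n b) j ω)) (nb (q.l j) B) := by
      refine le_trans ?_ ((T.Nf_mono le_rfl _ (g_cell_nb _ B)).trans (g_Nf_N0 _ _ _))
      exact sum_le_sum fun p _ => le_add_of_nonneg_right (mul_nonneg (sq_nonneg _) (T.n2_nn _ p))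
    have h4 : (100 : ℝ) ≤ q.L := by exact_mod_cast hL
    have h5 : ‖(-(lam τ / 2 : ℂ))‖ ≤ q.κ / 2 := by
      rw [norm_neg, norm_div, Complex.norm_real, Real.norm_eq_abs]
      have := hl τ
      simp only [Complex.norm_ofNat]
      linarith
    have h6 : 0 ≤ N0 (q.l j) (cf (zeta q.L (q.n b) j ω)) (nb (q.l j) B) :=
      (g_Nf_nn _ _ _).trans (g_Nf_N0 _ _ _)
    rw [norm_mul]
    refine (mul_le_mul h5 h1 (norm_nonneg _) (by positivity)).trans ?_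
    have h7 := mul_le_mul_of_nonneg_left (h2.trans (add_le_add_right
      (mul_le_mul_of_nonneg_left h3 zero_le_two) _)) hκ
    nlinarith [mul_nonneg hκ h6, mul_nonneg hκ (norm_nonneg c)]

end Pool.Agent.Lib.MP_9cc147_pr.Cx
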