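import Pool.Agent.Lib.MP_9cc147_pr.Cx.G.S
import Pool.Agent.Lib.MP_9cc147_pr.Cx.A.One1

/-! The local sums lie in every closed class that contains their atoms. -/

open scoped Classical Topology
open Finset MeasureTheory ProbabilityTheory Filter

noncomputable section
namespace Pool.Agent.Lib.MP_9cc147_pr.Cx

variable {Ω : Type} {Q : Finset P → (Ω → ℂ) → Prop}

theorem Clo.cst (h : Clo Q) (S : Finset P) (c : ℂ) : Q S fun _ => c :=
  h.mono _ _ _ (empty_subset S) (h.const c)

theorem Clo.sum (h : Clo Q) {ι : Type} (J : Finset ι) (S : Finset P) (f : ι → Ω → ℂ)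
    (hf : ∀ i ∈ J, Q S (f i)) : Q S fun x => ∑ i ∈ J, f i x := by
  induction J using Finset.induction_on with
  | empty => simpa using h.cst S 0
  | insert i J hi ih =>
    simp only [sum_insert hi]
    exact h.add _ _ _ (hf i (mem_insert_self _ _)) (ih fun k hk => hf k (mem_insert_of_mem hk))

theorem Clo.prod (h : Clo Q) {ι : Type} (J : Finset ι) (S : ι → Finset P) (f : ι → Ω → ℂ)
    (hf : ∀ i ∈ J, Q (S i) (f i)) (hd : ∀ i ∈ J, ∀ k ∈ J, i ≠ k → Disjoint (S i) (S k)) :
    Q (J.biUnion S) fun x => ∏ i ∈ J, f i x := by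
  induction J using Finset.induction_on with
  | empty => simpa using h.const 1
  | insert i J hi ih =>
    simp only [prod_insert hi, biUnion_insert]
    refine h.mul _ _ _ _ ?_ (hf i (mem_insert_self _ _))
      (ih (fun k hk => hf k (mem_insert_of_mem hk)) fun k hk l hl =>
        hd k (mem_insert_of_mem hk) l (mem_insert_of_mem hl))
    rw [disjoint_biUnion_right]
    exact fun k hk => hd i (mem_insert_self _ _) k (mem_insert_of_mem hk) fun e => hi (e ▸ hk)

theorem Clo.prod' (h : Clo Q) {ι : Type} (J : Finset ι) (S : ι → Finset P) (W : Finset P)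
    (f : ι → Ω → ℂ) (hf : ∀ i ∈ J, Q (S i) (f i))
    (hd : ∀ i ∈ J, ∀ k ∈ J, i ≠ k → Disjoint (S i) (S k)) (hW : ∀ i ∈ J, S i ⊆ W) :
    Q W fun x => ∏ i ∈ J, f i x :=
  h.mono _ _ _ (biUnion_subset.2 hW) (h.prod J S f hf hd)

theorem Clo.mul' (h : Clo Q) {S S' W : Finset P} {f g : Ω → ℂ} (hd : Disjoint S S') (hf : Q S f)
    (hg : Q S' g) (h1 : S ⊆ W) (h2 : S' ⊆ W) : Q W fun x => f x * g x :=
  h.mono _ _ _ (union_subset h1 h2) (h.mul _ _ _ _ hd hf hg)

/-- multiplication by a function of grade zero -/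
theorem Clo.smul (h : Clo Q) {S : Finset P} {f g : Ω → ℂ} (hf : Q ∅ f) (hg : Q S g) :
    Q S fun x => f x * g x :=
  h.mul' (disjoint_empty_left _) hf hg (empty_subset _) Subset.rfl

theorem Clo.prod0 (h : Clo Q) {ι : Type} (J : Finset ι) (f : ι → Ω → ℂ)
    (hf : ∀ i ∈ J, Q ∅ (f i)) : Q ∅ fun x => ∏ i ∈ J, f i x :=
  h.prod' J (fun _ => ∅) ∅ f hf (fun _ _ _ _ _ => disjoint_empty_left _) fun _ _ => Subset.rfl

theorem g_comps_disj {Y X X' : Finset P} (h : X ∈ comps Y) (h' : X' ∈ comps Y) (hn : X ≠ X') :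
    Disjoint X X' :=
  disjoint_left.2 fun a ha ha' => hn (one_comps_eq h h' ha ha' (one_nr_refl 1 a))

theorem g_biUnion_comps (Y : Finset P) : (comps Y).biUnion id = Y := by
  ext a
  simp only [mem_biUnion, id]
  exact ⟨fun ⟨_, h, ha⟩ => one_comps_sub h ha,
    fun ha => ⟨_, one_mem_comps.2 ⟨a, ha, rfl⟩, one_self_comp ha⟩⟩

theorem g_under_near {L : ℕ} (hL : 1 ≤ L) (s0 : ℕ) {D U : Finset P} (h : U ⊆ D) :
    under L U ⊆ near s0 (reg L D U) (under L U) := fun b hb =>
  mem_filter.2 ⟨one_under_reg hL h hb, b, hb, one_nr_refl _ _⟩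

theorem g_lw_dead {L s0 : ℕ} {D U : Finset P} {c : P → Sf} (h : ¬ live s0 (reg L D U) c)
    (T M : Lab → P → ℂ) (K : Lab → Finset P → ℂ) (N : Finset P → (P → Option Lab) → ℂ) :
    lw L s0 D U T M K N c = 0 := by
  simp only [live, not_forall, not_not] at h
  obtain ⟨X, hX, h0⟩ := h
  obtain ⟨s, -, hs⟩ := mem_biUnion.1 hX
  have : ∏ s, ∏ X ∈ comps (pol (reg L D U) (red c) s), fw s0 c X * K s X = 0 :=
    prod_eq_zero (mem_univ s) (prod_eq_zero hs (by rw [h0, zero_mul]))
  rw [lw, this, mul_zero, zero_mul]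

theorem g_lw (h_one : S_one) (hQ : Clo Q) {L s0 : ℕ} {D U : Finset P}
    {T M : Ω → Lab → P → ℂ} {K : Ω → Lab → Finset P → ℂ}
    {N : Ω → Finset P → (P → Option Lab) → ℂ} (hL : 2 * s0 + 1 ≤ L) (hU : U ⊆ D)
    (hne : U.Nonempty) (hT : ∀ s, ∀ B ∈ under L U, Q ∅ fun x => T x s B)
    (hM : ∀ s, ∀ B ∈ under L U, Q {B} fun x => M x s B)
    (hK : ∀ s X, Conn X → X ⊆ near s0 (reg L D U) (under L U) → Q X fun x => K x s X)
    (hN : ∀ X σ, Conn X → X ⊆ under L U → Q X fun x => N x X σ) {c : P → Sf}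
    (hc : c ∈ loc L s0 D U) :
    Q (near s0 (reg L D U) (under L U)) fun x => lw L s0 D U (T x) (M x) (K x) (N x) c := by
  by_cases hl : live s0 (reg L D U) c
  swap
  · simp only [g_lw_dead hl]
    exact hQ.cst _ 0
  obtain ⟨-, h1, h2, h3, -⟩ := (h_one L s0 D U hL hU hne).1 c hc hl
  have hun := g_under_near (by omega : 1 ≤ L) s0 hU
  set R := reg L D U with hR
  set W := near s0 R (under L U) with hW
  have a1 : Q ∅ fun x => ∏ s, ∏ B ∈ (under L U).filter (fun b => lab (c b) = some s), T x s B :=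
    hQ.prod0 _ _ fun s _ => hQ.prod0 _ _ fun B hB => hT s B (mem_filter.1 hB).1
  have a2 : Q (W.filter fun b => ∃ s, c b = some (s, 1))
      fun x => ∏ s, ∏ B ∈ R.filter (fun b => c b = some (s, 1)), M x s B := by
    have k : ∀ s, ∀ B ∈ R.filter (fun b => c b = some (s, 1)), B ∈ under L U := fun s B hB =>
      h1 (mem_filter.2 ⟨(mem_filter.1 hB).1, s, (mem_filter.1 hB).2⟩)
    refine hQ.prod' _ (fun s => R.filter (fun b => c b = some (s, 1))) _ _ (fun s _ => ?_)
      (fun s _ t _ hst => ?_) fun s _ B hB => ?_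
    · exact hQ.prod' _ (fun B => {B}) _ _ (fun B hB => hM s B (k s B hB))
        (fun B _ B' _ hB => disjoint_singleton.2 hB) fun B hB => singleton_subset_iff.2 hB
    · refine disjoint_left.2 fun B hB hB' => hst ?_
      have := (mem_filter.1 hB).2.symm.trans (mem_filter.1 hB').2
      simpa using this
    · exact mem_filter.2 ⟨hun (k s B hB), s, (mem_filter.1 hB).2⟩
  have a3 : Q (W.filter fun b => ∃ s, red c b = some (s, true))
      fun x => ∏ s, ∏ X ∈ comps (pol R (red c) s), fw s0 c X * K x s X := by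
    have k : ∀ s, ∀ X ∈ comps (pol R (red c) s), Conn X ∧ X ⊆ W := fun s X hX =>
      h3 X (mem_biUnion.2 ⟨s, mem_univ _, hX⟩)
    refine hQ.prod' _ (fun s => pol R (red c) s) _ _ (fun s _ => ?_)
      (fun s _ t _ hst => ?_) fun s _ B hB => ?_
    · exact hQ.prod' _ (fun X => X) _ _
        (fun X hX => hQ.smul (hQ.const _) (hK s X (k s X hX).1 (k s X hX).2))
        (fun X hX X' hX' hn => g_comps_disj hX hX' hn) fun X hX => one_comps_sub hX
    · refine disjoint_left.2 fun B hB hB' => hst ?_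
      have := (mem_filter.1 hB).2.symm.trans (mem_filter.1 hB').2
      simpa using this
    · exact mem_filter.2 ⟨(k s _ (one_mem_comps.2 ⟨B, hB, rfl⟩)).2 (one_self_comp hB), s,
        (mem_filter.1 hB).2⟩
  have a4 : Q (W.filter fun b => c b = none)
      fun x => ∏ X ∈ comps (bad R (red c)), N x X (sig R (red c) X) := by
    refine hQ.prod' _ (fun X => X) _ _
      (fun X hX => hN X _ (one_comps_conn hX) ((one_comps_sub hX).trans h2))
      (fun X hX X' hX' hn => g_comps_disj hX hX' hn) fun X hX B hB => ?_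
    have hB' := one_comps_sub hX hB
    refine mem_filter.2 ⟨hun (h2 hB'), ?_⟩
    simpa [red] using (mem_filter.1 hB').2
  have d23 : Disjoint (W.filter fun b => ∃ s, c b = some (s, 1))
      (W.filter fun b => ∃ s, red c b = some (s, true)) := by
    refine disjoint_left.2 fun B hB hB' => ?_
    obtain ⟨s, hs⟩ := (mem_filter.1 hB).2
    obtain ⟨t, ht⟩ := (mem_filter.1 hB').2
    simp [red, hs] at ht
  have a5 := hQ.mul _ _ _ _ d23 (hQ.smul a1 a2) a3
  refine hQ.mul' ?_ a5 a4 (union_subset (filter_subset _ _) (filter_subset _ _)) (filter_subset _ _)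
  refine disjoint_left.2 fun B hB hB' => ?_
  have h0 := (mem_filter.1 hB').2
  rcases mem_union.1 hB with hB | hB
  · obtain ⟨s, hs⟩ := (mem_filter.1 hB).2
    simp [h0] at hs
  · obtain ⟨s, hs⟩ := (mem_filter.1 hB).2
    simp [red, h0] at hs

theorem t_g_clo (h_one : S_one) : S_g_clo := by
  intro Ω Q L s0 D U T M K N hQ hL hU hne hT hM hK
  refine ⟨fun s => ?_, fun hN σ => ?_⟩
  · exact hQ.sum _ _ _ fun c hc => g_lw h_one hQ (N := fun _ _ _ => 0) hL hU hne hT hM hK
      (fun X _ _ _ => hQ.cst X 0) (mem_filter.1 hc).1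
  · exact hQ.sum _ _ _ fun c hc => g_lw h_one hQ hL hU hne hT hM hK hN (mem_filter.1 hc).1

end Pool.Agent.Lib.MP_9cc147_pr.Cx
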