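import Pool.Agent.Lib.MP_9cc147_pr.Cx.G.S

/-! Domination and dependence are closed classes. -/

open scoped Classical Topology
open Finset MeasureTheory ProbabilityTheory Filter

noncomputable section
namespace Pool.Agent.Lib.MP_9cc147_pr.Cx

theorem g_dom_clo {T : Type} [TopologicalSpace T] (τ0 : T) (y : P → Om → ℝ)
    (hy : ∀ B ω, 1 ≤ y B ω) : Clo (Dom τ0 y) := by
  have p0 : ∀ (S : Finset P) ω, 0 ≤ ∏ B ∈ S, y B ω := fun S ω =>
    prod_nonneg fun B _ => zero_le_one.trans (hy B ω)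
  refine ⟨fun c => ⟨fun _ => measurable_const, fun _ => continuous_const, ‖c‖, norm_nonneg _,
    .of_forall fun _ _ => by simp⟩, ?_, ?_, ?_⟩
  · rintro S S' f h ⟨m, c, C, hC, b⟩
    refine ⟨m, c, C, hC, b.mono fun τ k ω => (k ω).trans (mul_le_mul_of_nonneg_left ?_ hC)⟩
    exact prod_le_prod_of_subset_of_one_le h (fun B _ => zero_le_one.trans (hy B ω))
      fun B _ _ => hy B ω
  · rintro S f g ⟨m, c, C, hC, b⟩ ⟨m', c', C', hC', b'⟩
    refine ⟨fun τ => (m τ).add (m' τ), fun ω => (c ω).add (c' ω), C + C', add_nonneg hC hC',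
      (b.and b').mono fun τ k ω => (norm_add_le _ _).trans ?_⟩
    rw [add_mul]
    exact add_le_add (k.1 ω) (k.2 ω)
  · rintro S S' f g h ⟨m, c, C, hC, b⟩ ⟨m', c', C', hC', b'⟩
    refine ⟨fun τ => (m τ).mul (m' τ), fun ω => (c ω).mul (c' ω), C * C', mul_nonneg hC hC',
      (b.and b').mono fun τ k ω => ?_⟩
    rw [norm_mul, prod_union h, mul_mul_mul_comm]
    exact mul_le_mul (k.1 ω) (k.2 ω) (norm_nonneg _) (mul_nonneg hC (p0 S ω))

theorem t_g_dom : S_g_dom := by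
  intro T _ τ0 y hy
  refine ⟨g_dom_clo τ0 y hy, fun f hf => ⟨fun τ => measurable_const (a := f τ), fun _ => hf,
    ‖f τ0‖ + 1, by positivity, ?_⟩, ?_⟩
  · have h := (hf.norm.tendsto τ0).eventually (eventually_le_nhds (lt_add_one ‖f τ0‖))
    exact h.mono fun τ k ω => by simpa using k
  · rintro μ S F ⟨m, c, C, hC, b⟩ hi
    refine ⟨(hi.const_mul C).mono' (m τ0).aestronglyMeasurable (.of_forall b.self_of_nhds),
      fun _ => ?_⟩
    exact continuousAt_of_dominated (.of_forall fun τ => (m τ).aestronglyMeasurable)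
      (b.mono fun τ k => .of_forall k) (hi.const_mul C) (.of_forall fun ω => (c ω).continuousAt)

theorem t_g_dep : S_g_dep := by
  intro Z
  refine ⟨fun c => ⟨measurable_const, fun _ _ _ => rfl⟩, fun _ _ _ _ h => h, ?_, ?_⟩
  · rintro - f g ⟨m, d⟩ ⟨m', d'⟩
    refine ⟨m.add m', fun ω ω' h => ?_⟩
    show f ω + g ω = f ω' + g ω'
    rw [d ω ω' h, d' ω ω' h]
  · rintro - - f g - ⟨m, d⟩ ⟨m', d'⟩
    refine ⟨m.mul m', fun ω ω' h => ?_⟩
    show f ω * g ω = f ω' * g ω'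
    rw [d ω ω' h, d' ω ω' h]

end Pool.Agent.Lib.MP_9cc147_pr.Cx
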