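import Pool.Agent.Lib.MP_9cc147_pr.Cx.G.Clo

/-! Integration of the reblocking identity. -/

open scoped Classical Topology
open Finset MeasureTheory ProbabilityTheory Filter

noncomputable section
namespace Pool.Agent.Lib.MP_9cc147_pr.Cx

theorem g_prod_comps (Y : Finset P) (g : P → ℂ) :
    ∏ X ∈ comps Y, ∏ B ∈ X, g B = ∏ B ∈ Y, g B := by
  conv_rhs => rw [← g_biUnion_comps Y]
  exact (prod_biUnion (t := id) fun X hX X' hX' hn => g_comps_disj hX hX' hn).symm

theorem g_prod_under {L : ℕ} (hL : 1 ≤ L) (U : Finset P) (g : P → ℂ) :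
    ∏ B ∈ under L U, g B = ∏ B' ∈ U, ∏ B ∈ cell L B', g B :=
  prod_biUnion fun _ _ _ _ hn => disjoint_left.2 fun _ h h' =>
    hn (((one_mem_cell hL).1 h).symm.trans ((one_mem_cell hL).1 h'))

theorem g_sum_under {M : Type} [AddCommMonoid M] {L : ℕ} (hL : 1 ≤ L) (U : Finset P) (g : P → M) :
    ∑ B ∈ under L U, g B = ∑ B' ∈ U, ∑ B ∈ cell L B', g B :=
  sum_biUnion fun _ _ _ _ hn => disjoint_left.2 fun _ h h' =>
    hn (((one_mem_cell hL).1 h).symm.trans ((one_mem_cell hL).1 h'))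

theorem g_part (D : Finset P) (c : P → St) (g : P → ℂ) :
    (∏ s, ∏ B ∈ fre D c s, g B) * (∏ s, ∏ B ∈ pol D c s, g B) * ∏ B ∈ bad D c, g B =
      ∏ B ∈ D, g B := by
  rw [← prod_fiberwise D c g, Fintype.prod_option, Fintype.prod_prod_type]
  simp only [Fintype.prod_bool, prod_mul_distrib, fre, pol, bad]
  ring_nf

theorem g_scale (D : Finset P) (g : P → ℂ) (I : Lab → P → ℂ) (K : Lab → Finset P → ℂ)
    (N : Finset P → (P → Option Lab) → ℂ) :
    Wsum D (fun s B => g B * I s B) (fun s U => (∏ B ∈ U, g B) * K s U)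
      (fun U σ => (∏ B ∈ U, g B) * N U σ) = (∏ B ∈ D, g B) * Wsum D I K N := by
  rw [Wsum, Wsum, mul_sum]
  refine sum_congr rfl fun c _ => ?_
  simp only [prod_mul_distrib, g_prod_comps]
  rw [← g_part D c g]
  ring

theorem g_congr {D : Finset P} {I I' : Lab → P → ℂ} {K K' : Lab → Finset P → ℂ}
    {N N' : Finset P → (P → Option Lab) → ℂ} (hI : ∀ s, ∀ B ∈ D, I s B = I' s B)
    (hK : ∀ s U, U ⊆ D → Conn U → K s U = K' s U)
    (hN : ∀ U σ, U ⊆ D → Conn U → N U σ = N' U σ) : Wsum D I K N = Wsum D I' K' N' := by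
  refine sum_congr rfl fun c _ => ?_
  congr 1
  · congr 1
    · exact prod_congr rfl fun s _ => prod_congr rfl fun B hB => hI s B (mem_filter.1 hB).1
    · exact prod_congr rfl fun s _ => prod_congr rfl fun U hU =>
        hK s U ((one_comps_sub hU).trans (filter_subset _ _)) (one_comps_conn hU)
  · exact prod_congr rfl fun U hU =>
      hN U _ ((one_comps_sub hU).trans (filter_subset _ _)) (one_comps_conn hU)

/-- the blocks of one class of a configuration -/
def gCl (D : Finset P) (c : P → St) : Option Lab → Finset P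
  | none => bad D c
  | some s => pol D c s

theorem g_cl_sub (D : Finset P) (c : P → St) (x : Option Lab) : gCl D c x ⊆ D := by
  cases x <;> exact filter_subset _ _

theorem g_cl_far {D : Finset P} {c : P → St} (hc : valid D c) {x y : Option Lab} {a b : P}
    (ha : a ∈ gCl D c x) (hb : b ∈ gCl D c y) (h : nr 1 a b) : x = y := by
  have h1 := hc a (g_cl_sub D c x ha) b (g_cl_sub D c y hb) h
  have h2 := hc b (g_cl_sub D c y hb) a (g_cl_sub D c x ha) (one_nr_symm h)
  cases x with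
  | none =>
    cases y with
    | none => rfl
    | some t => exact absurd (mem_filter.1 ha).2 (h2.2 t (mem_filter.1 hb).2)
  | some s =>
    cases y with
    | none => exact absurd (mem_filter.1 hb).2 (h1.2 s (mem_filter.1 ha).2)
    | some t =>
      rw [h1.1 s t (by rw [(mem_filter.1 ha).2]; rfl) (by rw [(mem_filter.1 hb).2]; rfl)]

theorem g_int (h_ind : S_ind) (m : Measure ℝ) [IsProbabilityMeasure m] (D : Finset P)
    (Z : Finset P → Set P) (I : Lab → P → ℂ) (K : Om → Lab → Finset P → ℂ)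
    (N : Om → Finset P → (P → Option Lab) → ℂ)
    (hZ : ∀ U U', U ⊆ D → U' ⊆ D → (∀ x ∈ U, ∀ y ∈ U', ¬ nr 1 x y) → Disjoint (Z U) (Z U'))
    (hK : ∀ U s, U ⊆ D → Conn U → Dep (Z U) (fun ω => K ω s U) ∧
      Integrable (fun ω => K ω s U) (mu0 m))
    (hN : ∀ U σ, U ⊆ D → Conn U → Dep (Z U) (fun ω => N ω U σ) ∧
      Integrable (fun ω => N ω U σ) (mu0 m)) :
    Integrable (fun ω => Wsum D I (K ω) (N ω)) (mu0 m) ∧
    ∫ ω, Wsum D I (K ω) (N ω) ∂mu0 m =
      Wsum D I (fun s U => ∫ ω, K ω s U ∂mu0 m) fun U σ => ∫ ω, N ω U σ ∂mu0 m := by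
  have key : ∀ c, valid D c →
      Integrable (fun ω => (∏ s, ∏ X ∈ comps (pol D c s), K ω s X) *
        ∏ X ∈ comps (bad D c), N ω X (sig D c X)) (mu0 m) ∧
      ∫ ω, (∏ s, ∏ X ∈ comps (pol D c s), K ω s X) *
        ∏ X ∈ comps (bad D c), N ω X (sig D c X) ∂mu0 m =
      (∏ s, ∏ X ∈ comps (pol D c s), ∫ ω, K ω s X ∂mu0 m) *
        ∏ X ∈ comps (bad D c), ∫ ω, N ω X (sig D c X) ∂mu0 m := by
    intro c hc
    have sub : ∀ i ∈ univ.sigma fun x => comps (gCl D c x), i.2 ⊆ D ∧ Conn i.2 := fun i hi =>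
      ⟨(one_comps_sub (mem_sigma.1 hi).2).trans (g_cl_sub D c _), one_comps_conn (mem_sigma.1 hi).2⟩
    have h := h_ind m (Σ _ : Option Lab, Finset P) (univ.sigma fun x => comps (gCl D c x))
      (fun i => Z i.2)
      (fun i ω => Option.elim i.1 (N ω i.2 (sig D c i.2)) fun s => K ω s i.2) ?_ ?_
    · simp only [prod_sigma, Fintype.prod_option, gCl, Option.elim] at h
      simpa only [mul_comm] using h
    · rintro ⟨x, U⟩ hi
      cases x with
      | none => exact hN U _ (sub _ hi).1 (sub _ hi).2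
      | some s => exact hK U s (sub _ hi).1 (sub _ hi).2
    · rintro ⟨x, U⟩ hi ⟨y, U'⟩ hk hn
      refine hZ U U' (sub _ hi).1 (sub _ hk).1 fun a ha b hb hab => hn ?_
      have hi' := (mem_sigma.1 hi).2
      have hk' := (mem_sigma.1 hk).2
      obtain rfl : x = y := g_cl_far hc (one_comps_sub hi' ha) (one_comps_sub hk' hb) hab
      obtain rfl : U = U' := one_comps_eq hi' hk' ha hb hab
      rfl
  simp only [Wsum, mul_assoc]
  refine ⟨integrable_finsetSum _ fun c hc => (key c (mem_filter.1 hc).2).1.const_mul _, ?_⟩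
  rw [integral_finsetSum _ fun c hc => (key c (mem_filter.1 hc).2).1.const_mul _]
  refine sum_congr rfl fun c hc => ?_
  rw [integral_const_mul, (key c (mem_filter.1 hc).2).2]

theorem g_L0_scale {L : ℕ} (hL : 1 ≤ L) (s0 : ℕ) {D U : Finset P} (hU : U ⊆ D)
    (g T M : Lab → P → ℂ) (K : Lab → Finset P → ℂ) (s : Lab) :
    L0 L s0 D U (fun s B => g s B * T s B) M K s =
      (∏ B ∈ under L U, g s B) * L0 L s0 D U T M K s := by
  rw [L0, L0, mul_sum]
  refine sum_congr rfl fun c hc => ?_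
  have h := (mem_filter.1 hc).2
  have e : ∏ t, ∏ B ∈ (under L U).filter (fun b => lab (c b) = some t), g t B =
      ∏ B ∈ under L U, g s B := by
    rw [prod_eq_single s]
    · rw [filter_true_of_mem fun b hb => h b (one_under_reg hL hU hb)]
    · intro t _ ht
      rw [filter_false_of_mem, prod_empty]
      intro b hb e
      rw [h b (one_under_reg hL hU hb)] at e
      exact ht (Option.some.inj e).symm
    · simp
  simp only [lw, prod_mul_distrib, e]
  ring

theorem g_dep_add {Z : Set P} {f g : Om → ℂ} (hf : Dep Z f) (hg : Dep Z g) :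
    Dep Z fun ω => f ω + g ω :=
  ⟨hf.1.add hg.1, fun ω ω' h => by simp only [hf.2 ω ω' h, hg.2 ω ω' h]⟩

theorem g_dep_mul {Z : Set P} {f g : Om → ℂ} (hf : Dep Z f) (hg : Dep Z g) :
    Dep Z fun ω => f ω * g ω :=
  ⟨hf.1.mul hg.1, fun ω ω' h => by simp only [hf.2 ω ω' h, hg.2 ω ω' h]⟩

theorem g_dep_const (Z : Set P) (c : ℂ) : Dep Z fun _ => c := ⟨measurable_const, fun _ _ _ => rfl⟩

theorem t_g_inp (h_reb : S_reb) (h_ind : S_ind) : S_g_inp := by
  intro m _ L s0 D a Z Ih I K hL hI hK hT hd hZ h0 h1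
  have hL1 : 1 ≤ L := by omega
  obtain ⟨T, hTd⟩ : ∃ T : Lab → P → ℂ, T = fun s B => Complex.exp (-a.d s B) * a.It s B := ⟨_, rfl⟩
  have hr : ∀ U σ, rb1 (mu0 m) L s0 D a U σ = Complex.exp (∑ B ∈ under L U, a.et 0 B) *
      ∫ ω, L1 L s0 D U T (a.M ω) (a.K ω) (a.N ω) σ ∂mu0 m := fun U σ => by rw [hTd, rb1]
  rw [← hTd] at h1
  have reb : ∀ ω, Wsum (under L D) (fun s B => Complex.exp (-a.d s B) * I ω s B)
      (fun s X => Complex.exp (-∑ B ∈ X, a.d s B) * K ω s X) (a.N ω) =
      Wsum D (fun s B' => ∏ B ∈ cell L B', T s B)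
        (fun s U => (∏ B ∈ under L U, Complex.exp (-a.d s B)) *
            L0 L s0 D U a.It (a.M ω) (a.K ω) s +
          if (bdry D U).Nonempty then L1 L s0 D U T (a.M ω) (a.K ω) (a.N ω) (cst D U s) else 0)
        (fun U σ => if Nn D U σ then L1 L s0 D U T (a.M ω) (a.K ω) (a.N ω) σ else 0) := by
    intro ω
    rw [h_reb L s0 D _ T (a.M ω) _ (a.K ω) (a.N ω) hL]
    · refine g_congr (fun _ _ _ => rfl) (fun s U hU _ => ?_) fun _ _ _ _ => rfl
      rw [hTd, g_L0_scale hL1 s0 hU]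
    · intro s B hB
      rw [hI ω s B hB, hTd, mul_assoc]
    · intro s X hX
      rw [hK ω s X hX, hTd, prod_mul_distrib, ← Complex.exp_sum, sum_neg_distrib]
      ring
  simp only [reb]
  have i1 : ∀ U σ (p : Prop) [Decidable p], U ⊆ D → Conn U →
      (Dep (Z U) fun ω => if p then L1 L s0 D U T (a.M ω) (a.K ω) (a.N ω) σ else 0) ∧
      Integrable (fun ω => if p then L1 L s0 D U T (a.M ω) (a.K ω) (a.N ω) σ else 0) (mu0 m) := by
    intro U σ p _ hU hc
    by_cases hp : p
    · simpa only [hp, if_true] using h1 U σ hU hc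
    · simp only [hp, if_false]
      exact ⟨g_dep_const _ _, integrable_zero _ _ _⟩
  have h := g_int h_ind m D Z (fun s B' => ∏ B ∈ cell L B', T s B)
    (fun ω s U => (∏ B ∈ under L U, Complex.exp (-a.d s B)) * L0 L s0 D U a.It (a.M ω) (a.K ω) s +
      if (bdry D U).Nonempty then L1 L s0 D U T (a.M ω) (a.K ω) (a.N ω) (cst D U s) else 0)
    (fun ω U σ => if Nn D U σ then L1 L s0 D U T (a.M ω) (a.K ω) (a.N ω) σ else 0) hZ
    (fun U s hU hc => ⟨g_dep_add (g_dep_mul (g_dep_const _ _) (h0 U s hU hc).1) (i1 U _ _ hU hc).1,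
      ((h0 U s hU hc).2.const_mul _).add (i1 U _ _ hU hc).2⟩)
    (fun U σ hU hc => i1 U σ _ hU hc)
  refine ⟨h.1, ?_⟩
  have eg : ∀ U : Finset P, ∏ B' ∈ U, Complex.exp (-∑ B ∈ cell L B', a.et 0 B) =
      Complex.exp (-∑ B ∈ under L U, a.et 0 B) := fun U => by
    rw [← Complex.exp_sum, sum_neg_distrib, g_sum_under hL1]
  rw [h.2, ← eg D, ← g_scale]
  refine g_congr (fun s B hB => ?_) (fun s U hU hc => ?_) fun U σ hU hc => ?_
  · rw [hTd, prod_mul_distrib, hT s B hB, hd s B hB, ← Complex.exp_sum, ← mul_assoc, ← mul_assoc,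
      ← Complex.exp_add, ← Complex.exp_add]
    congr 2
    simp only [sum_sub_distrib, sum_add_distrib, sum_neg_distrib]
    ring
  · have e : ∑ B ∈ U, a.d' s B = ∑ B ∈ under L U, a.d s B + ∑ B ∈ under L U, a.et s B -
        ∑ B ∈ under L U, a.et 0 B := by
      rw [← sum_add_distrib, ← sum_sub_distrib, g_sum_under hL1]
      exact sum_congr rfl fun B hB => hd s B (hU hB)
    rw [integral_add ((h0 U s hU hc).2.const_mul _) (i1 U _ _ hU hc).2, integral_const_mul, eg,
      rbK, rb0, hr, mul_add, mul_add, ← Complex.exp_sum, sum_neg_distrib]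
    congr 1
    · rw [← mul_assoc, ← mul_assoc, ← Complex.exp_add, ← Complex.exp_add, e]
      congr 2
      ring
    · split_ifs with hb
      · rw [← mul_assoc, ← mul_assoc, ← mul_assoc, ← Complex.exp_add, ← Complex.exp_add,
          ← Complex.exp_add]
        have : -∑ B ∈ under L U, a.et 0 B + -∑ B ∈ U, a.d' s B + ∑ B ∈ U, a.d' s B +
          ∑ B ∈ under L U, a.et 0 B = 0 := by ring
        rw [this, Complex.exp_zero, one_mul]
      · simp
  · rw [eg, rbN]
    split_ifs with hb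
    · rw [hr, ← mul_assoc, ← Complex.exp_add, neg_add_cancel, Complex.exp_zero, one_mul]
    · simp

end Pool.Agent.Lib.MP_9cc147_pr.Cx
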