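import Pool.Agent.Lib.MP_9cc147_pr.Cx.K0

/-! Statements of the abstract lemmas on one reblocking: closure, domination, integration. -/

open scoped Classical Topology
open Finset MeasureTheory ProbabilityTheory Filter

noncomputable section
namespace Pool.Agent.Lib.MP_9cc147_pr.Cx

/-- a class of functions, graded by sets of blocks, closed under sums and disjoint products -/
structure Clo {Ω : Type} (Q : Finset P → (Ω → ℂ) → Prop) : Prop where
  const : ∀ c : ℂ, Q ∅ fun _ => c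
  mono : ∀ S S' f, S ⊆ S' → Q S f → Q S' f
  add : ∀ S f g, Q S f → Q S g → Q S fun x => f x + g x
  mul : ∀ S S' f g, Disjoint S S' → Q S f → Q S' g → Q (S ∪ S') fun x => f x * g x

/-- the local sums lie in every closed class that contains their atoms -/
def S_g_clo : Prop := ∀ (Ω : Type) (Q : Finset P → (Ω → ℂ) → Prop) (L s0 : ℕ) (D U : Finset P)
  (T M : Ω → Lab → P → ℂ) (K : Ω → Lab → Finset P → ℂ)
  (N : Ω → Finset P → (P → Option Lab) → ℂ), Clo Q → 2 * s0 + 1 ≤ L → U ⊆ D → U.Nonempty →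
  (∀ s, ∀ B ∈ under L U, Q ∅ fun x => T x s B) → (∀ s, ∀ B ∈ under L U, Q {B} fun x => M x s B) →
  (∀ s X, Conn X → X ⊆ near s0 (reg L D U) (under L U) → Q X fun x => K x s X) →
  (∀ s, Q (near s0 (reg L D U) (under L U)) fun x => L0 L s0 D U (T x) (M x) (K x) s) ∧
  ((∀ X σ, Conn X → X ⊆ under L U → Q X fun x => N x X σ) →
    ∀ σ, Q (near s0 (reg L D U) (under L U)) fun x => L1 L s0 D U (T x) (M x) (K x) (N x) σ)

/-- measurable in the noise, continuous in the parameter, and dominated near `τ0` by a constant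
times the product of the `y B` over `S` -/
def Dom {T : Type} [TopologicalSpace T] (τ0 : T) (y : P → Om → ℝ) (S : Finset P)
    (F : T × Om → ℂ) : Prop :=
  (∀ τ, Measurable fun ω => F (τ, ω)) ∧ (∀ ω, Continuous fun τ => F (τ, ω)) ∧
    ∃ C : ℝ, 0 ≤ C ∧ ∀ᶠ τ in 𝓝 τ0, ∀ ω, ‖F (τ, ω)‖ ≤ C * ∏ B ∈ S, y B ω

def S_g_dom : Prop := ∀ (T : Type) [TopologicalSpace T] (τ0 : T) (y : P → Om → ℝ),
  (∀ B ω, 1 ≤ y B ω) → Clo (Dom τ0 y) ∧
  (∀ f : T → ℂ, Continuous f → Dom τ0 y ∅ fun x => f x.1) ∧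
  ∀ (μ : Measure Om) S F, Dom τ0 y S F → Integrable (fun ω => ∏ B ∈ S, y B ω) μ →
    Integrable (fun ω => F (τ0, ω)) μ ∧
      (FirstCountableTopology T → ContinuousAt (fun τ => ∫ ω, F (τ, ω) ∂μ) τ0)

/-- dependence on the noise in `Z` is a closed class -/
def S_g_dep : Prop := ∀ Z : Set P, Clo fun _ f => Dep Z f

/-- integration of the reblocking identity -/
def S_g_inp : Prop := ∀ (m : Measure ℝ) [IsProbabilityMeasure m] (L s0 : ℕ) (D : Finset P) (a : Inp)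
  (Z : Finset P → Set P) (Ih : Lab → P → ℂ) (I : Om → Lab → P → ℂ) (K : Om → Lab → Finset P → ℂ),
  2 * s0 + 1 ≤ L →
  (∀ ω s, ∀ B ∈ under L D, I ω s B = a.It s B * (1 + a.M ω s B)) →
  (∀ ω s X, X ⊆ under L D → K ω s X = a.K ω s X * ∏ B ∈ X, a.It s B) →
  (∀ s, ∀ B' ∈ D, ∏ B ∈ cell L B', a.It s B =
    Complex.exp (-∑ B ∈ cell L B', a.et s B) * Ih s B') →
  (∀ s, ∀ B' ∈ D, a.d' s B' = ∑ B ∈ cell L B', (a.d s B + a.et s B - a.et 0 B)) →
  (∀ U U', U ⊆ D → U' ⊆ D → (∀ x ∈ U, ∀ y ∈ U', ¬ nr 1 x y) → Disjoint (Z U) (Z U')) →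
  (∀ U s, U ⊆ D → Conn U → Dep (Z U) (fun ω => L0 L s0 D U a.It (a.M ω) (a.K ω) s) ∧
    Integrable (fun ω => L0 L s0 D U a.It (a.M ω) (a.K ω) s) (mu0 m)) →
  (∀ U σ, U ⊆ D → Conn U → Dep (Z U) (fun ω => L1 L s0 D U
      (fun s B => Complex.exp (-a.d s B) * a.It s B) (a.M ω) (a.K ω) (a.N ω) σ) ∧
    Integrable (fun ω => L1 L s0 D U
      (fun s B => Complex.exp (-a.d s B) * a.It s B) (a.M ω) (a.K ω) (a.N ω) σ) (mu0 m)) →
  Integrable (fun ω => Wsum (under L D) (fun s B => Complex.exp (-a.d s B) * I ω s B)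
      (fun s X => Complex.exp (-∑ B ∈ X, a.d s B) * K ω s X) (a.N ω)) (mu0 m) ∧
  ∫ ω, Wsum (under L D) (fun s B => Complex.exp (-a.d s B) * I ω s B)
      (fun s X => Complex.exp (-∑ B ∈ X, a.d s B) * K ω s X) (a.N ω) ∂mu0 m =
    Complex.exp (-∑ B ∈ under L D, a.et 0 B) *
      Wsum D (fun s B => Complex.exp (-a.d' s B) * Ih s B)
        (fun s U => Complex.exp (-∑ B ∈ U, a.d' s B) * rbK (mu0 m) L s0 D a s U)
        (fun U σ => rbN (mu0 m) L s0 D a U σ)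

end Pool.Agent.Lib.MP_9cc147_pr.Cx
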