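import Pool.Agent.Lib.MP_9cc147_pr.Cx.G.Atom
import Pool.Agent.Lib.MP_9cc147_pr.Cx.G.Dom
import Pool.Agent.Lib.MP_9cc147_pr.Cx.G.Inp

/-! The local sums of one step: domination, locality in the noise, and the product of the weights. -/

open scoped Classical Topology
open Finset MeasureTheory ProbabilityTheory Filter

noncomputable section
namespace Pool.Agent.Lib.MP_9cc147_pr.Cx

theorem g_It_ne (q : Par) (j : ℕ) (x : State) (b : ℕ × ℕ) (z : ℂ) (Θ : Fld) (s : Lab) (B : P) :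
    q.It j x b z Θ s B ≠ 0 := mul_ne_zero (Complex.exp_ne_zero _) (Complex.exp_ne_zero _)

/-- the fine zone of a coarse polymer -/
def gz (q : Par) (b : ℕ × ℕ) (j : ℕ) (U : Finset P) : Finset P :=
  near 4 (reg q.L (box (q.m b (j + 1))) U) (under q.L U)

theorem gz_box {q : Par} (hL : 100 ≤ q.L) {b : ℕ × ℕ} {j : ℕ} (hb : Par.ok b (j + 1))
    (U : Finset P) : gz q b j U ⊆ box (q.m b j) := T.near_sub.trans (T.reg_box q hL hb U)

theorem gz_near {q : Par} {b : ℕ × ℕ} {j : ℕ} {U : Finset P} {a : P} (h : a ∈ gz q b j U) :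
    ∃ a' ∈ under q.L U, nr 8 a' a :=
  let ⟨_, a', h1, h2⟩ := T.mem_near.1 h; ⟨a', h1, one_nr_mono h2 (by norm_num)⟩

theorem g_domL (h_one : S_one) {Y : Type} [TopologicalSpace Y] (τ0 : Y) {q : Par} {b : ℕ × ℕ}
    {j : ℕ} {z : ℂ} {t0 α ν ρ : ℝ} {x : Y → State} {U : Finset P} {θ : P → ℝ} {v : Fld}
    (hL : 100 ≤ q.L) (hκ : 0 ≤ q.κ) (hε : q.ε ≤ q.κ) (hm : Measurable (zeta q.L (q.n b) j))
    (hD : ∀ ω, Dir (q.n b) (zeta q.L (q.n b) j ω)) (hG : ∀ τ, q.Good t0 j (x τ) α ν ρ)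
    (hb : Par.ok b (j + 1)) (hz : ‖z‖ ≤ t0) (hU : Pm (q.m b (j + 1)) U) (hθ : Dir (q.n b) θ)
    (hv : Strip (q.n b) (q.l (j + 1)) q.h (q.L * q.h) U v)
    (c1 : ∀ s, Continuous fun τ => (x τ).lam s)
    (c2 : ∀ s, ∀ B ∈ box (q.m b j), Continuous fun τ => ((x τ).a b z).d s B)
    (c3 : ∀ s, ∀ B ∈ box (q.m b j),
      Continuous fun τ => q.It j (x τ) b z (bg (q.n b) z + cf θ + v) s B)
    (c4 : ∀ s X θ', Pm (q.m b j) X → Dir (q.n b) θ' →
      Strip (q.n b) (q.l j) q.h (q.L * q.h) X v →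
      Continuous fun τ => ((x τ).a b z).K s X (bg (q.n b) z + cf θ' + v))
    (c5 : ∀ X σ θ', Pm (q.m b j) X → Dir (q.n b) θ' →
      Strip (q.n b) (q.l j) q.h (q.L * q.h) X v →
      Continuous fun τ => ((x τ).a b z).N X σ (bg (q.n b) z + cf θ' + v)) :
    (∀ s, Dom τ0 (gy q b j) (gz q b j U)
      fun p => q.J0 j (x p.1) b z U s (bg (q.n b) z + cf θ + v) p.2) ∧
    ∀ σ, Dom τ0 (gy q b j) (gz q b j U)
      fun p => q.J1 j (x p.1) b z U σ (bg (q.n b) z + cf θ + v) p.2 := by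
  obtain ⟨hQ, h0, -⟩ := t_g_dom Y τ0 (gy q b j) (gy_one q hκ b j)
  have hb' := T.ok_pred hb
  have hun : under q.L U ⊆ gz q b j U := g_under_near (by omega) 4 hU.1
  have hbox := gz_box hL hb U
  have hS : ∀ X, X ⊆ gz q b j U → Strip (q.n b) (q.l j) q.h (q.L * q.h) X v := fun X hX =>
    (t_T_strip q.L (q.n b) (q.l j) q.h _ U X v hL (T.l_pos q hL j) fun a ha => gz_near (hX ha)).2
      (by rw [← T.l_succ]; exact hv)
  have hM : ∀ s, ∀ B ∈ under q.L U, Dom τ0 (gy q b j) {B}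
      fun p => (q.inp j (x p.1) b z (bg (q.n b) z + cf θ + v)).M p.2 s B := by
    intro s B hB
    have h1 := hQ.smul (h0 _ ((c3 s B (hbox (hun hB))).inv₀ fun τ => g_It_ne _ _ _ _ _ _ _ _))
      (g_domI (τ0 := τ0) (z := z) hL hκ hm (c1 s)
        (fun τ => (((hG τ).bnd.lam s).trans (hG τ).a.2).trans hε) B (bg (q.n b) z + cf θ + v))
    have h2 := hQ.add _ _ _ h1 (hQ.cst {B} (-1))
    simpa only [Par.inp, div_eq_inv_mul, sub_eq_add_neg, Pi.inv_apply] using h2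
  have hK : ∀ s X, Conn X → X ⊆ gz q b j U → Dom τ0 (gy q b j) X
      fun p => (q.inp j (x p.1) b z (bg (q.n b) z + cf θ + v)).K p.2 s X := by
    intro s X hc hX
    have hP : Pm (q.m b j) X := ⟨hX.trans hbox, hc⟩
    have h1 := hQ.smul (h0 _ ((continuous_finsetProd X fun B hB => c3 s B (hP.1 hB)).inv₀
        fun τ => prod_ne_zero_iff.2 fun B _ => g_It_ne _ _ _ _ _ _ _ _))
      (g_domK (τ0 := τ0) (F := fun τ => ((x τ).a b z).K s X) hL hκ hm hD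
        (fun τ => ((hG τ).str.locK b z s X hb' hP).1) (fun τ => (hG τ).bnd.K b z s X hb' hz hP)
        hθ (hS X hX) fun θ' h => c4 s X θ' hP h (hS X hX))
    simpa only [Par.inp, div_eq_inv_mul, Pi.inv_apply] using h1
  have hN : ∀ X σ, Conn X → X ⊆ under q.L U → Dom τ0 (gy q b j) X
      fun p => (q.inp j (x p.1) b z (bg (q.n b) z + cf θ + v)).N p.2 X σ := by
    intro X σ hc hX
    have hP : Pm (q.m b j) X := ⟨(hX.trans hun).trans hbox, hc⟩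
    exact g_domK (τ0 := τ0) (F := fun τ => ((x τ).a b z).N X σ) hL hκ hm hD
      (fun τ => ((hG τ).str.locN b z X σ hb' hP).1) (fun τ => (hG τ).bnd.N b z X σ hb' hz hP)
      hθ (hS X (hX.trans hun)) fun θ' h => c5 X σ θ' hP h (hS X (hX.trans hun))
  refine ⟨(t_g_clo h_one _ _ q.L 4 _ U _ _ _ (fun _ _ _ => 0) hQ (by omega) hU.1 hU.2.1
    (fun s B hB => h0 _ (c3 s B (hbox (hun hB)))) hM hK).1,
    (t_g_clo h_one _ _ q.L 4 _ U _ _ _ _ hQ (by omega) hU.1 hU.2.1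
    (fun s B hB => h0 _ ((c2 s B (hbox (hun hB))).neg.cexp.mul (c3 s B (hbox (hun hB))))) hM hK).2
      hN⟩

/-- the noise seen by a coarse polymer -/
def gZ (l L : ℕ) (U : Finset P) : Set P :=
  {y | ∃ a' ∈ under L U, ∃ a, nr 8 a' a ∧ ∃ p ∈ nb l a, nr (l / 8) p y}

theorem g_sep {l L w w' : ℤ} (hl : 0 ≤ l) (hL : 100 ≤ L) (hw : 4 * w ≤ l) (hw' : 8 * w' ≤ l)
    {u u' a' c' a c p r y : ℤ} (h1 : a' < (u + 1) * L) (h2 : u' * L ≤ c') (h3 : a - a' ≤ 8)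
    (h4 : c' - c ≤ 8) (h5 : p ≤ (a + 1) * l + w) (h6 : c * l - w ≤ r) (h7 : y - p ≤ w')
    (h8 : r - y ≤ w') (hl1 : 1 ≤ l) : u' - u ≤ 1 := by
  by_contra hc
  have e1 : u + 2 ≤ u' := by omega
  have e2 : (u + 2) * L ≤ u' * L := mul_le_mul_of_nonneg_right e1 (by omega)
  have e3 : a + 80 ≤ c := by nlinarith
  have e4 : (a + 80) * l ≤ c * l := mul_le_mul_of_nonneg_right e3 hl
  nlinarith

theorem gZ_disj {l L : ℕ} (hl : 1 ≤ l) (hL : 100 ≤ L) {U U' : Finset P}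
    (h : ∀ x ∈ U, ∀ y ∈ U', ¬ nr 1 x y) : Disjoint (gZ l L U) (gZ l L U') := by
  refine Set.disjoint_left.2 ?_
  rintro y ⟨a', ha', a, ha, p, hp, hy⟩ ⟨c', hc', c, hc, r, hr, hy'⟩
  obtain ⟨u, hu, ha'⟩ := mem_biUnion.1 ha'
  obtain ⟨u', hu', hc'⟩ := mem_biUnion.1 hc'
  refine h u hu u' hu' ?_
  simp only [cell, mem_product, mem_Ico] at ha' hc'
  rw [nb, T.mem_fat] at hp hr
  rw [T.nr_iff] at ha hc hy hy' ⊢
  have hL' : (100 : ℤ) ≤ L := by exact_mod_cast hL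
  have hl' : (1 : ℤ) ≤ l := by exact_mod_cast hl
  have w1 : 4 * ((l / 4 : ℕ) : ℤ) ≤ l := by omega
  have w2 : 8 * ((l / 8 : ℕ) : ℤ) ≤ l := by omega
  refine ⟨?_, ?_, ?_, ?_⟩
  · exact g_sep (by omega) hL' w1 w2 hc'.1.2 ha'.1.1 hc.2.1 ha.1 hr.2.1 hp.1 hy'.2.1 hy.1 hl'
  · exact g_sep (by omega) hL' w1 w2 ha'.1.2 hc'.1.1 ha.2.1 hc.1 hp.2.1 hr.1 hy.2.1 hy'.1 hl'
  · exact g_sep (by omega) hL' w1 w2 hc'.2.2 ha'.2.1 hc.2.2.2 ha.2.2.1 hr.2.2.2 hp.2.2.1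
      hy'.2.2.2 hy.2.2.1 hl'
  · exact g_sep (by omega) hL' w1 w2 ha'.2.2 hc'.2.1 ha.2.2.2 hc.2.2.1 hp.2.2.2 hr.2.2.1
      hy.2.2.2 hy'.2.2.1 hl'

theorem g_depL (h_one : S_one) (h_zel : S_zel) {q : Par} {b : ℕ × ℕ} {j : ℕ} (z : ℂ) {t0 : ℝ}
    {x : State} {U : Finset P} (Θ : Fld) (hL : 100 ≤ q.L) (hS : q.Str t0 j x)
    (hb : Par.ok b (j + 1)) (hU : Pm (q.m b (j + 1)) U) :
    (∀ s, Dep (gZ (q.l j) q.L U) (q.J0 j x b z U s Θ)) ∧
      ∀ σ, Dep (gZ (q.l j) q.L U) (q.J1 j x b z U σ Θ) := by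
  have hQ := t_g_dep (gZ (q.l j) q.L U)
  have hb' := T.ok_pred hb
  obtain ⟨-, ⟨hm, -, -⟩, -, hr, -⟩ := h_zel.2 q.L (q.n b) j hL (T.n_pos q hL hb')
  have hun : under q.L U ⊆ gz q b j U := g_under_near (by omega) 4 hU.1
  have hbox := gz_box hL hb U
  have key : ∀ (X : Finset P) (F : Fld → ℂ), X ⊆ gz q b j U → Loc (q.n b) (q.l j) X F →
      Dep (gZ (q.l j) q.L U) fun ω => F (Θ + cf (zeta q.L (q.n b) j ω)) := by
    intro X F hX hF
    refine ⟨hF.1.comp (g_meas_shift hm Θ), fun ω ω' h => hF.2 _ _ fun p hp => ?_⟩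
    obtain ⟨hp1, hp2⟩ := mem_inter.1 hp
    obtain ⟨a, ha, hp1⟩ := mem_biUnion.1 hp1
    obtain ⟨a', h1, h2⟩ := gz_near (hX ha)
    simp only [Pi.add_apply, cf]
    rw [hr ω ω' p hp2 fun i y hy => h i y ⟨a', h1, a, h2, p, hp1, hy⟩]
  have hI : ∀ (lam : ℝ), ∀ B ∈ box (q.m b j), Loc (q.n b) (q.l j) {B} (q.Ih b j z lam B) := by
    intro lam B hB
    refine ⟨(((g_meas_En _).sub_const _).const_mul _).cexp, fun Θ Ξ h => ?_⟩
    have e : En Θ (cell (q.l j) B) = En Ξ (cell (q.l j) B) := T.En_congr fun y hy d => by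
      have := T.crn_mem hB hy d
      refine h _ (mem_inter.2 ⟨?_, ?_⟩)
      · simpa [nbs] using this.1
      · rw [T.n_eq q hb']; exact this.2
    simp only [Par.Ih, Par.Qz, e]
  have hM : ∀ s, ∀ B ∈ under q.L U,
      Dep (gZ (q.l j) q.L U) fun ω => (q.inp j x b z Θ).M ω s B := fun s B hB => by
    have h := g_dep_add (g_dep_mul (key {B} _ (singleton_subset_iff.2 (hun hB))
      (hI (x.lam s) B (hbox (hun hB)))) (g_dep_const _ (q.It j x b z Θ s B)⁻¹)) (g_dep_const _ (-1))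
    simpa only [Par.inp, div_eq_mul_inv, sub_eq_add_neg] using h
  have hK : ∀ s X, Conn X → X ⊆ gz q b j U →
      Dep (gZ (q.l j) q.L U) fun ω => (q.inp j x b z Θ).K ω s X := fun s X hc hX => by
    have h := g_dep_mul (key X _ hX (hS.locK b z s X hb' ⟨hX.trans hbox, hc⟩))
      (g_dep_const _ (∏ B ∈ X, q.It j x b z Θ s B)⁻¹)
    simpa only [Par.inp, div_eq_mul_inv] using h
  have hN : ∀ X σ, Conn X → X ⊆ under q.L U →
      Dep (gZ (q.l j) q.L U) fun ω => (q.inp j x b z Θ).N ω X σ := fun X σ hc hX =>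
    key X _ (hX.trans hun) (hS.locN b z X σ hb' ⟨(hX.trans hun).trans hbox, hc⟩)
  exact ⟨(t_g_clo h_one Om _ q.L 4 (box (q.m b (j + 1))) U (fun _ => (q.inp j x b z Θ).It)
    (q.inp j x b z Θ).M (q.inp j x b z Θ).K (fun _ _ _ => 0) hQ (by omega) hU.1 hU.2.1
    (fun s B _ => g_dep_const _ _) hM hK).1,
    (t_g_clo h_one Om _ q.L 4 (box (q.m b (j + 1))) U
    (fun _ s B => Complex.exp (-(q.inp j x b z Θ).d s B) * (q.inp j x b z Θ).It s B)
    (q.inp j x b z Θ).M (q.inp j x b z Θ).K (q.inp j x b z Θ).N hQ (by omega) hU.1 hU.2.1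
    (fun s B _ => g_dep_const _ _) hM hK).2 hN⟩

theorem g_En_cell {l L : ℕ} (hl : 1 ≤ l) (hL : 1 ≤ L) (Θ : Fld) (B' : P) :
    En Θ (cell (l * L) B') = ∑ B ∈ cell L B', En Θ (cell l B) := by
  have e : cell (l * L) B' = under l (cell L B') := by
    ext a
    rw [one_mem_under hl, one_mem_cell hL, one_mem_cell (Nat.mul_pos hl hL)]
    simp only [par, Nat.cast_mul]
    rw [Int.ediv_ediv_of_nonneg (by positivity), Int.ediv_ediv_of_nonneg (by positivity)]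
  rw [e, En, g_sum_under hl]
  rfl

theorem g_prod_It {q : Par} (hL : 100 ≤ q.L) {b : ℕ × ℕ} {j : ℕ} (hb : Par.ok b (j + 1))
    (x : State) (z : ℂ) (Θ : Fld) (s : Lab) {B' : P} (hB : B' ∈ box (q.m b (j + 1))) :
    ∏ B ∈ cell q.L B', q.It j x b z Θ s B =
      Complex.exp (-∑ B ∈ cell q.L B', q.et j x b z s B) *
        q.Ih b (j + 1) z (q.lam' j x s) B' Θ := by
  simp only [Par.It, Par.Ih, ← Complex.exp_add, ← Complex.exp_sum]
  congr 1
  have hl := T.l_pos q hL j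
  have hL1 : 1 ≤ q.L := by omega
  simp only [Par.Qz, Par.et, T.l_succ, g_En_cell hl hL1]
  have hp : ∀ B ∈ cell q.L B', par q.L B = B' := fun B h => (one_mem_cell hL1).1 h
  by_cases hab : ab (q.m b (j + 1)) B'
  · rw [if_pos hab, ← sum_sub_distrib, mul_sum, ← sum_neg_distrib, ← sum_add_distrib]
    refine sum_congr rfl fun B h => ?_
    rw [Par.xt, hp B h]
    by_cases h2 : ab (q.m b j) B
    · simp only [h2, not_true, and_false, if_false, if_true]; ring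
    · simp only [h2, hab, not_false_iff, and_true, if_false, if_true]; ring
  · rw [if_neg hab, sub_zero, mul_sum, ← sum_neg_distrib, ← sum_add_distrib]
    refine sum_congr rfl fun B h => ?_
    have h2 : ¬ ab (q.m b j) B := fun h2 => hab (by
      rw [T.m_succ q hb] at h2
      rw [← hp B h]
      exact T.ab_par hL ((T.par_box (by omega)).1 (by rw [hp B h]; exact hB)) h2 (T.nr_refl _ _))
    rw [Par.xt, hp B h]
    simp only [h2, hab, false_and, if_false]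
    ring

end Pool.Agent.Lib.MP_9cc147_pr.Cx
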