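import Pool.Agent.Lib.MP_9cc147_pr.Cx.G.Tsid

/-! Continuity of one step in a parameter. -/

open scoped Classical Topology
open Finset MeasureTheory ProbabilityTheory Filter

noncomputable section
namespace Pool.Agent.Lib.MP_9cc147_pr.Cx

theorem g_Nf_lin (l : ℕ) (w : ℝ) (S : Finset P) : Nf l (lin (w, 0)) S = S.card * w ^ 2 := by
  have h1 : ∀ x, n1 (lin (w, 0)) x = w ^ 2 := fun x => by
    have e0 : dg (lin (w, 0)) x 0 = 0 := by simp [dg, lin, crn]
    have e1 : dg (lin (w, 0)) x 1 = -w := by simp [dg, lin, crn]; ring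
    have e2 : dg (lin (w, 0)) x 2 = 0 := by simp [dg, lin, crn]
    have e3 : dg (lin (w, 0)) x 3 = w := by simp [dg, lin, crn]; ring
    simp only [n1, Fin.sum_univ_four, e0, e1, e2, e3, norm_zero, norm_neg, Complex.norm_real,
      Real.norm_eq_abs, sq_abs]
    ring
  have h2 : ∀ x, n2 (lin (w, 0)) x = 0 := fun x => by
    have e1 : lin (w, 0) (x + (1, 0)) - 2 * lin (w, 0) x + lin (w, 0) (x - (1, 0)) = 0 := by
      simp [lin]; ring
    have e2 : lin (w, 0) (x + (0, 1)) - 2 * lin (w, 0) x + lin (w, 0) (x - (0, 1)) = 0 := by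
      simp [lin]; ring
    have e3 : lin (w, 0) (x + (1, 1)) - lin (w, 0) (x + (1, 0)) - lin (w, 0) (x + (0, 1)) +
        lin (w, 0) x = 0 := by simp [lin]
    simp only [n2, e1, e2, e3, norm_zero]
    ring
  simp [Nf, h1, h2]

theorem g_card_nb (l : ℕ) (B : P) : (nb l B).card = (l + 2 * (l / 4) + 1) ^ 2 := by
  have e : ∀ x : ℤ, ((x + 1) * l + (l / 4 : ℕ) + 1 - (x * l - (l / 4 : ℕ))).toNat =
      l + 2 * (l / 4) + 1 := fun x => by
    rw [show (x + 1) * l + (l / 4 : ℕ) + 1 - (x * l - (l / 4 : ℕ)) =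
      ((l + 2 * (l / 4) + 1 : ℕ) : ℤ) by push_cast; ring, Int.toNat_natCast]
  rw [nb, fat, card_product, Int.card_Icc, Int.card_Icc, e, e, sq]

theorem g_strip_lin {l L : ℕ} (hl : 1 ≤ l) (hL : 100 ≤ L) {h : ℝ} (hh : 0 ≤ h) {X : Finset P}
    (hX : ∀ a ∈ X, nr 4 (((L ^ 2 / 2 : ℕ) : ℤ), ((L ^ 2 / 2 : ℕ) : ℤ)) a) :
    Strip (l * L ^ 2) l h (L * h) X (lin ((h / (L * l) : ℝ), 0)) := by
  have hL2 : 100 ≤ L ^ 2 := by nlinarith
  have hl' : (1 : ℝ) ≤ l := by exact_mod_cast hl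
  have hL' : (100 : ℝ) ≤ L := by exact_mod_cast hL
  obtain ⟨k, hk⟩ : ∃ k : ℤ, k = ((L ^ 2 / 2 : ℕ) : ℤ) := ⟨_, rfl⟩
  rw [← hk] at hX
  have k1 : 50 ≤ k := by omega
  have k2 : 2 * k ≤ ((L ^ 2 : ℕ) : ℤ) := by omega
  have hl0 : (1 : ℤ) ≤ l := by exact_mod_cast hl
  have key : ∀ p ∈ nbs l X, (k - 5) * l ≤ p.1 ∧ p.1 ≤ (k + 6) * l ∧ (k - 5) * l ≤ p.2 ∧
      p.2 ≤ (k + 6) * l := by
    intro p hp
    obtain ⟨a, ha, hp⟩ := mem_biUnion.1 hp
    have h1 := T.nr_iff.1 (hX a ha)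
    rw [nb, T.mem_fat] at hp
    have w1 : ((l / 4 : ℕ) : ℤ) ≤ l := by omega
    simp only [Nat.cast_ofNat] at h1
    refine ⟨?_, ?_, ?_, ?_⟩ <;> nlinarith [h1.1, h1.2.1, h1.2.2.1, h1.2.2.2, hp.1, hp.2.1,
      hp.2.2.1, hp.2.2.2]
  have hr : ∀ p ∈ nbs l X, p ∉ ring (l * L ^ 2) := by
    intro p hp hr
    obtain ⟨a1, a2, a3, a4⟩ := key p hp
    refine (mem_sdiff.1 hr).2 ?_
    have b1 : 0 < (k - 5) * l := mul_pos (by omega) (by omega)
    have b2 : (k + 6) * l < ((l * L ^ 2 : ℕ) : ℤ) := by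
      rw [Nat.cast_mul]
      nlinarith
    simp only [inn, mem_product, mem_Ioo]
    omega
  refine ⟨fun B _ => ?_, fun p hp h => absurd h (hr p hp), (h / (L * l) : ℝ) * ((k * l : ℤ) : ℂ),
    fun ⟨p, hp⟩ => absurd (mem_inter.1 hp).2 (hr p (mem_inter.1 hp).1), fun p hp => ?_⟩
  · rw [g_Nf_lin, g_card_nb, div_pow, ← mul_div_assoc, div_le_iff₀ (by positivity), mul_comm]
    refine mul_le_mul_of_nonneg_left ?_ (sq_nonneg _)
    have : l + 2 * (l / 4) + 1 ≤ L * l := by
      have : 100 * l ≤ L * l := Nat.mul_le_mul_right _ hL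
      omega
    exact_mod_cast Nat.pow_le_pow_left this 2
  · obtain ⟨a1, a2, -, -⟩ := key p hp
    have e : lin ((h / (L * l) : ℝ), 0) p - (h / (L * l) : ℝ) * ((k * l : ℤ) : ℂ) =
        ((h / (L * l) * ((p.1 - k * l : ℤ) : ℝ) : ℝ) : ℂ) := by
      simp only [lin]; push_cast; ring
    have b : |((p.1 - k * l : ℤ) : ℝ)| ≤ 6 * l := by
      have : |p.1 - k * l| ≤ 6 * l := abs_le.2 ⟨by linarith, by linarith⟩
      exact_mod_cast this
    rw [e, Complex.norm_real, Real.norm_eq_abs, abs_mul, abs_of_nonneg (by positivity)]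
    refine (mul_le_mul_of_nonneg_left b (by positivity)).trans ?_
    rw [div_mul_eq_mul_div, div_le_iff₀ (by positivity)]
    have h6 : (6 : ℝ) ≤ L * L := by nlinarith
    have : 6 * (l : ℝ) ≤ L * (L * l) := by
      nlinarith [mul_le_mul_of_nonneg_right h6 (zero_le_one.trans hl')]
    nlinarith [mul_le_mul_of_nonneg_left this hh]

theorem g_bg0 (n : ℕ) (θ : P → ℝ) (v : Fld) : bg n 0 + cf θ + v = cf θ + v := by
  ext p; simp [bg]

theorem t_con (h_one : S_one) (h_zel : S_zel) (h_zmom : S_zmom) : S_con := by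
  filter_upwards [h_zmom, g_fp] with q hmom ⟨hL, hκ, hh, hε⟩ Y _ hY t0 j x α ν ρ hG hC
  have hLh : 0 ≤ q.L * q.h := mul_nonneg (Nat.cast_nonneg _) hh
  by_cases hne : Nonempty Y
  swap
  · have : IsEmpty Y := not_nonempty_iff.1 hne
    exact ⟨⟨fun _ => continuous_of_discreteTopology, fun _ _ _ _ _ => continuous_of_discreteTopology,
      fun _ _ _ _ _ _ _ _ _ => continuous_of_discreteTopology,
      fun _ _ _ _ _ _ _ _ _ => continuous_of_discreteTopology⟩,
      fun _ _ _ _ _ => continuous_of_discreteTopology⟩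
  have ht : ‖(0 : ℂ)‖ ≤ t0 := by simpa using (hG hne.some).t.1.le
  have hI : ∀ b, Par.ok b j → ∀ S ⊆ box (q.m b j), ∀ F : Y × Om → ℂ,
      (∀ τ0, Dom τ0 (gy q b j) S F) → Continuous fun τ => ∫ ω, F (τ, ω) ∂PP := by
    intro b hb S hS F hF
    refine continuous_iff_continuousAt.2 fun τ0 => ?_
    have hy : Integrable (fun ω => ∏ B ∈ S, gy q b j B ω) PP := by
      simpa only [gy_prod] using ((hmom b j hb).1 _ hS).1
    exact ((t_g_dom Y τ0 (gy q b j) (gy_one q hκ b j)).2.2 PP S F (hF τ0) hy).2 hY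
  have cE : ∀ b s X v, Par.ok b j → Pm (q.m b j) X → Strip (q.n b) (q.l j) q.h (q.L * q.h) X v →
      Continuous fun τ => q.Ez b j (((x τ).a b 0).K s X) v := by
    intro b s X v hb hX hv
    obtain ⟨hD, ⟨hm, -, -⟩, -⟩ := h_zel.2 q.L (q.n b) j hL (T.n_pos q hL hb)
    have e : bg (q.n b) 0 + cf 0 + v = v := by ext p; simp [bg, cf]
    have h := hI b hb X hX.1 _ fun τ0 => g_domK (τ0 := τ0) (F := fun τ => ((x τ).a b 0).K s X)
      hL hκ hm (fun ω => (hD ω).1) (fun τ => ((hG τ).str.locK b 0 s X hb hX).1)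
      (fun τ => (hG τ).bnd.K b 0 s X hb ht hX) (g_dir_zero _) hv
      fun θ' h => by simpa only [g_bg0] using hC.K b s X θ' v hb hX h hv
    rw [e] at h
    exact h
  have hsm : ∀ {R B X}, X ∈ smalls R B → X ⊆ R ∧ Conn X ∧ B ∈ X ∧ X.card ≤ 4 := fun h =>
    ⟨mem_powerset.1 (mem_filter.1 h).1, (mem_filter.1 h).2⟩
  have ce : ∀ b s B, Par.ok b j → Continuous fun τ => q.e j (x τ) b 0 s B := by
    intro b s B hb
    refine (((Complex.continuous_ofReal.comp (hC.lam s)).div_const _).mul continuous_const).sub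
      (continuous_finsetSum _ fun X hX => Continuous.div_const ?_ _)
    have e : q.ctr b j 0 X = 0 := by
      unfold Par.ctr
      split_ifs
      · ext p; simp [bg]
      · rfl
    rw [e]
    exact cE b s X 0 hb ⟨(hsm hX).1, (hsm hX).2.1⟩ (g_strip_zero _ _ _ hLh _)
  have cl : ∀ s, Continuous fun τ => q.lam' j (x τ) s := by
    intro s
    have hb : Par.ok (1, j + 1) j := ⟨Or.inl rfl, Nat.le_succ _, Nat.succ_pos _⟩
    have hn : q.n (1, j + 1) = q.l j * q.L ^ 2 := by simp only [Par.n, Par.l]; ring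
    have cq : ∀ B, nr 1 q.Bc B →
        Continuous fun τ => q.qB (1, j + 1) j (((x τ).a (1, j + 1) 0).K s) B := by
      intro B hB
      refine (Continuous.sub (continuous_finsetSum _ fun X hX => Continuous.div_const ?_ _)
        (continuous_finsetSum _ fun X hX => Continuous.div_const ?_ _)).div_const _
      · refine cE _ s X _ hb ⟨(hsm hX).1, (hsm hX).2.1⟩ ?_
        rw [hn]
        exact g_strip_lin (T.l_pos q hL j) hL hh fun a ha => T.nr_trans hB
          (T.conn_nr (hsm hX).2.1 (hsm hX).2.2.2 (hsm hX).2.2.1 ha) le_rfl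
      · have e : lin 0 = 0 := by ext p; simp [lin]
        rw [e]
        exact cE _ s X 0 hb ⟨(hsm hX).1, (hsm hX).2.1⟩ (g_strip_zero _ _ _ hLh _)
    exact (hC.lam s).add (((Complex.continuous_re.comp (cq _ (T.nr_refl _ _))).add
      (Complex.continuous_re.comp (cq _ (by simp [nr])))).neg.div_const _)
  have cet : ∀ b s B, Par.ok b j → Continuous fun τ => q.et j (x τ) b 0 s B := by
    intro b s B hb
    refine (ce b s B hb).add ?_
    unfold Par.xt
    split_ifs
    · exact ((Complex.continuous_ofReal.comp (cl s)).div_const _).mul continuous_const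
    · exact continuous_const
  have cIt : ∀ b Θ s B, Par.ok b j → Continuous fun τ => q.It j (x τ) b 0 Θ s B :=
    fun b Θ s B hb => (ce b s B hb).neg.cexp.mul
      (((Complex.continuous_ofReal.comp (cl s)).div_const _).neg.mul continuous_const).cexp
  have cd : ∀ b s B, Par.ok b (j + 1) → B ∈ box (q.m b (j + 1)) →
      Continuous fun τ => q.d' j (x τ) b 0 s B := by
    intro b s B hb hB
    have hb' := T.ok_pred hb
    have cD : Continuous fun τ => q.D' j (x τ) b 0 s B :=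
      continuous_finsetSum _ fun a ha => ((hC.d b s a hb' (by
        rw [T.m_succ q hb, ← T.par_box (by omega), (T.mem_cell (by omega)).1 ha]
        exact hB)).add (cet b s a hb')).sub (cet b 0 a hb')
    unfold Par.d'
    split_ifs
    · exact cD
    · exact Complex.continuous_ofReal.comp
        (continuous_const.max (continuous_const.min (Complex.continuous_re.comp cD)))
  have cJ : ∀ b U θ v, Par.ok b (j + 1) → Pm (q.m b (j + 1)) U → Dir (q.n b) θ →
      Strip (q.n b) (q.l (j + 1)) q.h (q.L * q.h) U v →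
      (∀ s, Continuous fun τ =>
        rb0 PP q.L 4 (box (q.m b (j + 1))) (q.inp j (x τ) b 0 (cf θ + v)) s U) ∧
      ∀ σ, Continuous fun τ =>
        rb1 PP q.L 4 (box (q.m b (j + 1))) (q.inp j (x τ) b 0 (cf θ + v)) U σ := by
    intro b U θ v hb hU hθ hv
    have hb' := T.ok_pred hb
    obtain ⟨hD, ⟨hm, -, -⟩, -⟩ := h_zel.2 q.L (q.n b) j hL (T.n_pos q hL hb')
    have h := fun τ0 : Y => g_domL h_one τ0 (x := x) (z := 0) hL hκ hε hm (fun ω => (hD ω).1) hG
      hb ht hU hθ hv hC.lam (fun s B hB => hC.d b s B hb' hB) (fun s B _ => cIt b _ s B hb')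
      (fun s X θ' h1 h2 h3 => by simpa only [g_bg0] using hC.K b s X θ' v hb' h1 h2 h3)
      fun X σ θ' h1 h2 h3 => by simpa only [g_bg0] using hC.N b X σ θ' v hb' h1 h2 h3
    simp only [g_bg0] at h
    exact ⟨fun s => (continuous_finsetSum _ fun B _ => cet b s B hb').cexp.mul
        (hI b hb' _ (gz_box hL hb U) _ fun τ0 => (h τ0).1 s),
      fun σ => (continuous_finsetSum _ fun B _ => cet b 0 B hb').cexp.mul
        (hI b hb' _ (gz_box hL hb U) _ fun τ0 => (h τ0).2 σ)⟩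
  refine ⟨⟨cl, cd, fun b s U θ v hb hU hθ hv => ?_, fun b U σ θ v hb hU hθ hv => ?_⟩,
    fun b s B _ hb => ce b s B (T.ok_pred hb)⟩
  · refine ((cJ b U θ v hb hU hθ hv).1 s).add ?_
    split_ifs
    · exact (continuous_finsetSum _ fun B hB => cd b s B hb (hU.1 hB)).cexp.mul
        ((cJ b U θ v hb hU hθ hv).2 _)
    · exact continuous_const
  · show Continuous fun τ => rbN PP q.L 4 (box (q.m b (j + 1))) (q.inp j (x τ) b 0 (cf θ + v)) U σ
    unfold rbN
    split_ifs
    · exact (cJ b U θ v hb hU hθ hv).2 σ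
    · exact continuous_const

end Pool.Agent.Lib.MP_9cc147_pr.Cx
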