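import Pool.Agent.Lib.MP_9cc147_pr.Cx.G.Step

/-! The exact identity of one step. -/

open scoped Classical Topology
open Finset MeasureTheory ProbabilityTheory Filter

noncomputable section
namespace Pool.Agent.Lib.MP_9cc147_pr.Cx

theorem g_strip_zero (n l : ℕ) (h : ℝ) {h' : ℝ} (hh : 0 ≤ h') (X : Finset P) :
    Strip n l h h' X 0 :=
  ⟨fun B _ => by simpa [Nf, n1, n2, dg] using sq_nonneg h, fun _ _ _ => rfl, 0, fun _ => rfl,
    fun p _ => by simpa using hh⟩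

theorem g_fp : ∀ᶠ q in FP, 100 ≤ q.L ∧ 0 ≤ q.κ ∧ 0 ≤ q.h ∧ q.ε ≤ q.κ := by
  filter_upwards [fp_L 100, fp_κ (fun _ _ => 1) (fun _ _ => one_pos), fp_h fun _ _ _ => 0,
    fp_ε (fun _ _ κ _ _ => if 0 < κ then κ else 1) fun _ _ κ _ _ => by
      split_ifs with h
      exacts [h, one_pos]] with q h1 h2 h3 h4
  exact ⟨h1.2, h2.1.le, h3, by simpa only [h2.1, if_true] using h4.2⟩

theorem t_sid (h_one : S_one) (h_reb : S_reb) (h_ind : S_ind) (h_zel : S_zel) (h_zmom : S_zmom) :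
    S_sid := by
  filter_upwards [h_zmom, g_fp] with q hmom ⟨hL, hκ, hh, hε⟩ t0 j x α ν ρ hG b z θ hb hz hθ hd
  have hb' := T.ok_pred hb
  obtain ⟨hD, ⟨hm, -, -⟩, -⟩ := h_zel.2 q.L (q.n b) j hL (T.n_pos q hL hb')
  have hun : under q.L (box (q.m b (j + 1))) = box (q.m b j) := by
    rw [T.under_box (by omega), T.m_succ q hb]
  have hint : ∀ U, Pm (q.m b (j + 1)) U →
      (∀ s, Integrable (q.J0 j x b z U s (bg (q.n b) z + cf θ)) PP) ∧
        ∀ σ, Integrable (q.J1 j x b z U σ (bg (q.n b) z + cf θ)) PP := by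
    intro U hU
    have h := g_domL h_one (Y := Unit) () (x := fun _ => x) (v := 0) hL hκ hε hm
      (fun ω => (hD ω).1) (fun _ => hG) hb hz hU hθ
      (g_strip_zero _ _ _ (mul_nonneg (Nat.cast_nonneg _) hh) _) (fun _ => continuous_const)
      (fun _ _ _ => continuous_const) (fun _ _ _ => continuous_const)
      (fun _ _ _ _ _ _ => continuous_const) fun _ _ _ _ _ _ => continuous_const
    have hy : Integrable (fun ω => ∏ B ∈ gz q b j U, gy q b j B ω) PP := by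
      simpa only [gy_prod] using ((hmom b j hb').1 _ (gz_box hL hb U)).1
    have h3 := (t_g_dom Unit () (gy q b j) (gy_one q hκ b j)).2.2 PP (gz q b j U)
    rw [add_zero] at h
    exact ⟨fun s => (h3 _ (h.1 s) hy).1, fun σ => (h3 _ (h.2 σ) hy).1⟩
  rw [h_zel.1] at hint
  have h := (t_g_inp h_reb h_ind (gaussianReal 0 1) q.L 4 (box (q.m b (j + 1)))
    (q.inp j x b z (bg (q.n b) z + cf θ)) (gZ (q.l j) q.L)
    (fun s B => q.Ih b (j + 1) z (q.lam' j x s) B (bg (q.n b) z + cf θ))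
    (fun ω s B => q.Ih b j z (x.lam s) B (bg (q.n b) z + cf θ + cf (zeta q.L (q.n b) j ω)))
    (fun ω s X => (x.a b z).K s X (bg (q.n b) z + cf θ + cf (zeta q.L (q.n b) j ω)))
    (by omega) (fun ω s B _ => ?_) (fun ω s X _ => ?_)
    (fun s B hB => g_prod_It hL hb x z _ s hB) (fun s B hB => hd s B hB)
    (fun U U' _ _ h => gZ_disj (T.l_pos q hL j) hL h)
    (fun U s h1 h2 => ⟨(g_depL h_one h_zel z _ hL hG.str hb ⟨h1, h2⟩).1 s, (hint U ⟨h1, h2⟩).1 s⟩)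
    fun U σ h1 h2 => ⟨(g_depL h_one h_zel z _ hL hG.str hb ⟨h1, h2⟩).2 σ, (hint U ⟨h1, h2⟩).2 σ⟩).2
  · rw [← h_zel.1, hun] at h
    exact h
  · simp only [Par.inp]
    rw [add_sub_cancel, mul_div_cancel₀ _ (g_It_ne _ _ _ _ _ _ _ _)]
  · simp only [Par.inp]
    rw [div_mul_cancel₀ _ (prod_ne_zero_iff.2 fun B _ => g_It_ne _ _ _ _ _ _ _ _)]

end Pool.Agent.Lib.MP_9cc147_pr.Cx
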